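import Mathlib
import Pool.Agent.Lib.helper31.Rad

open Set Real
open scoped ContDiff

namespace Pool.Agent.Results.MP_66e6f4_an.Counterexamples

abbrev E := EuclideanSpace ℝ (Fin 3)

/-- Partial derivative `∂_j u`. -/
noncomputable def pd (j : Fin 3) (u : E → ℝ) (x : E) : ℝ :=
  fderiv ℝ u x (EuclideanSpace.single j 1)

/-- `(f,u)` satisfies all hypotheses of Q1 but `u` is not one-dimensional. -/
def Counter (f : ℝ → ℝ) (u : E → ℝ) : Prop :=
  ContDiff ℝ ∞ f ∧ HasCompactSupport f ∧ (∀ s, 0 ≤ f s) ∧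
  ContDiff ℝ ∞ u ∧ (∀ x, ∑ j, pd j (pd j u) x = f (u x)) ∧
  {x | fderiv ℝ u x = 0}.Finite ∧ (∀ x, 0 < u x → 0 < x 0) ∧
  ¬ ∃ (e : E) (c : ℝ) (V : ℝ → ℝ), ‖e‖ = 1 ∧ ∀ x, u x = V (inner ℝ e x + c)

lemma cd (i : Fin 3) (x : E) : HasFDerivAt (fun z : E => z i) (EuclideanSpace.proj (𝕜 := ℝ) i) x :=
  (EuclideanSpace.proj (𝕜 := ℝ) i).hasFDerivAt

lemma perp (e : E) : ∃ a b : ℝ, (a ≠ 0 ∨ b ≠ 0) ∧ ∀ τ : ℝ,
    inner ℝ e (!₂[τ * a, τ * b, 0] : E) = 0 := by
  by_cases h : e 0 = 0 ∧ e 1 = 0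
  · exact ⟨1, 0, Or.inl one_ne_zero, fun τ => by simp [PiLp.inner_apply, Fin.sum_univ_three, h.1, h.2]⟩
  · refine ⟨e 1, -e 0, ?_, fun τ => ?_⟩
    · by_contra h2
      push Not at h2
      exact h ⟨by simpa using h2.2, h2.1⟩
    · simp [PiLp.inner_apply, Fin.sum_univ_three]; ring

lemma pd_prod (f g f' g' : ℝ → ℝ) (hf : ∀ a, HasDerivAt f (f' a) a) (hg : ∀ a, HasDerivAt g (g' a) a)
    (c : ℝ) (x v : E) : fderiv ℝ (fun z : E => f (z 0) * g (z 1) - c) x v
      = f' (x 0) * g (x 1) * v 0 + f (x 0) * g' (x 1) * v 1 := by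
  have h := (((hf (x 0)).comp_hasFDerivAt x (cd 0 x)).mul
    ((hg (x 1)).comp_hasFDerivAt x (cd 1 x))).sub_const c
  have h' : fderiv ℝ (fun z : E => f (z 0) * g (z 1) - c) x = _ := h.fderiv
  rw [h']; simp; ring

lemma first : Counter 0 (fun x => exp (x 0) * cos (x 1) - 1) := by
  have a := pd_prod exp cos exp (fun a => -sin a) hasDerivAt_exp hasDerivAt_cos
  have b := pd_prod exp (fun a => -sin a) exp (fun a => -cos a) hasDerivAt_exp
    (fun a => (hasDerivAt_sin a).neg)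
  have p0 : pd 0 (fun x => exp (x 0) * cos (x 1) - 1) = fun x => exp (x 0) * cos (x 1) - 0 := by
    ext x; simp [pd, a]
  have p1 : pd 1 (fun x => exp (x 0) * cos (x 1) - 1) = fun x => exp (x 0) * (-sin (x 1)) - 0 := by
    ext x; simp [pd, a]
  have p2 : pd 2 (fun x => exp (x 0) * cos (x 1) - 1) = fun x => 0 := by
    ext x; simp [pd, a]
  refine ⟨contDiff_const, HasCompactSupport.zero, fun s => le_rfl, by fun_prop, fun x => ?_, ?_,
    fun x hx => ?_, ?_⟩
  · rw [Fin.sum_univ_three, p0, p1, p2]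
    simp only [pd, a, b]
    simp
  · convert Set.finite_empty
    ext x
    simp only [mem_setOf_eq, mem_empty_iff_false, iff_false]
    intro h
    have h0 := congrFun p0 x
    have h1 := congrFun p1 x
    simp only [pd, h, ContinuousLinearMap.zero_apply] at h0 h1
    have := exp_pos (x 0)
    have c : cos (x 1) = 0 := by nlinarith
    have s : sin (x 1) = 0 := by nlinarith
    have := sin_sq_add_cos_sq (x 1)
    rw [c, s] at this; norm_num at this
  · by_contra h
    have : exp (x 0) ≤ 1 := exp_le_one_iff.2 (not_lt.1 h)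
    have := exp_pos (x 0)
    have := cos_le_one (x 1)
    simp only at hx
    nlinarith
  · rintro ⟨e, c, V, -, h⟩
    obtain ⟨a, b, hab, hp⟩ := perp e
    have k : ∀ τ : ℝ, exp (τ * a) * cos (τ * b) = 1 := fun τ => by
      have h1 := h (!₂[τ * a, τ * b, 0] : E)
      have h2 := h 0
      rw [hp] at h1
      simp at h1 h2
      linarith
    by_cases hb : b = 0
    · have := k 1
      simp [hb] at this hab
      exact hab this
    · have := k (π / 2 / b)
      rw [div_mul_cancel₀ _ hb] at this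
      simp at this

open Pool.Agent.Lib.helper31.Rad

noncomputable def sq3 (x : E) : ℝ := x 0 ^ 2 + x 1 ^ 2 + x 2 ^ 2

lemma sq3_nonneg (x : E) : 0 ≤ sq3 x := by unfold sq3; positivity

lemma rad_d (g : ℝ → ℝ) (g' : ℝ) (x : E) (hg : HasDerivAt g g' (sq3 x)) :
    ∃ L : E →L[ℝ] ℝ, HasFDerivAt (fun z => g (sq3 z)) L x ∧
      ∀ j, L (EuclideanSpace.single j 1) = 2 * x j * g' := by
  have h := hg.comp_hasFDerivAt x ((((cd 0 x).pow 2).add ((cd 1 x).pow 2)).add ((cd 2 x).pow 2))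
  refine ⟨_, h, fun j => ?_⟩
  fin_cases j <;> simp <;> ring

lemma second : Counter f (fun x => psi (sq3 x)) := by
  have mp : ∀ x, 0 < m (sq3 x) := fun x => m_pos (sq3_nonneg x)
  have p : ∀ j, pd j (fun x => psi (sq3 x)) = fun x => 2 * x j * psi1 (sq3 x) := fun j => by
    ext x
    obtain ⟨L, h1, h2⟩ := rad_d psi _ x (psid (mp x))
    rw [pd, h1.fderiv, h2]
  have q : ∀ j x, pd j (fun x => 2 * x j * psi1 (sq3 x)) x
      = 2 * psi1 (sq3 x) + 4 * x j ^ 2 * psi2 (sq3 x) := fun j x => by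
    obtain ⟨L, h1, h2⟩ := rad_d psi1 _ x (psi1d (mp x))
    have h := ((cd j x).const_mul 2).mul h1
    have h' : fderiv ℝ (fun x : E => 2 * x j * psi1 (sq3 x)) x = _ := h.fderiv
    rw [pd, h']; simp [h2]; ring
  refine ⟨f_smooth, f_supp, f_nonneg, ?_, fun x => ?_, ?_, fun x hx => ?_, ?_⟩
  · rw [contDiff_iff_contDiffAt]
    intro x
    have : ContDiff ℝ ∞ sq3 := by unfold sq3; fun_prop
    exact (psi_smooth (mp x)).comp x this.contDiffAt
  · simp only [p, q, Fin.sum_univ_three]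
    rw [← key (sq3_nonneg x)]
    simp only [sq3]; ring
  · refine (Set.finite_singleton (0:E)).subset fun x hx => ?_
    simp only [mem_setOf_eq] at hx
    ext j
    have h0 := congrFun (p j) x
    simp only [pd, hx, ContinuousLinearMap.zero_apply] at h0
    have := psi1_pos (mp x)
    have : x j * psi1 (sq3 x) = 0 := by linarith
    simpa [(psi1_pos (mp x)).ne'] using this
  · exact absurd hx (not_lt.2 (psi_neg (mp x)).le)
  · rintro ⟨e, c, V, -, h⟩
    obtain ⟨a, b, hab, hp⟩ := perp e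
    have h1 := h (!₂[1 * a, 1 * b, 0] : E)
    have h2 := h 0
    rw [hp] at h1
    have pos : 0 < a ^ 2 + b ^ 2 := by
      rcases hab with h | h <;> positivity
    have := psi_lt pos
    simp [sq3] at h1 h2
    linarith

theorem result :
    (∃ f u, Counter f u ∧ ∃ x, 0 < u x) ∧ (∃ f u, Counter f u ∧ f ≠ 0) := by
  refine ⟨⟨_, _, first, !₂[1, 0, 0], ?_⟩, ⟨_, _, second, f_ne⟩⟩
  simp

end Pool.Agent.Results.MP_66e6f4_an.Counterexamples
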